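import Pool.Agent.Lib.LWR.Cst
import Pool.Agent.Lib.LW.Blk

/-!
Even degrees over real closed fields.
-/

namespace LWR

open LW

private theorem E2_ev {K : Type*} [CommRing K] {R : ℕ} (g : Fin R → K) (e : ℕ)
    (x : Fin R → K) :
    ev (fun τ : Fin e → Fin R => ∑ j, g j * ∏ i, (if τ i = j then (1 : K) else 0)) x =
      ∑ j, g j * x j ^ e := by
  unfold ev
  simp only [Finset.sum_mul]
  rw [Finset.sum_comm]
  refine Finset.sum_congr rfl fun j _ => ?_
  have h1 : x j = ∑ i, (if i = j then (1 : K) else 0) * x i := by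
    simp
  rw [h1, Fintype.sum_pow, Finset.mul_sum]
  refine Finset.sum_congr rfl fun τ _ => ?_
  rw [Finset.prod_mul_distrib, mul_assoc]

private theorem E2_sum {K : Type*} [CommRing K] {R s₁ r : ℕ} (γ : Fin (R * s₁) → Fin r → K)
    (ρ : Fin r) (z : Fin R → Fin s₁ → K) (d : ℕ) :
    ∑ i, γ i ρ * z (finProdFinEquiv.symm i).1 (finProdFinEquiv.symm i).2 ^ d =
      ∑ j, ∑ l, γ (finProdFinEquiv (j, l)) ρ * z j l ^ d := by
  rw [← finProdFinEquiv.sum_comp, Fintype.sum_prod_type]
  refine Finset.sum_congr rfl fun j _ => Finset.sum_congr rfl fun l _ => ?_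
  rw [Equiv.symm_apply_apply]

/-- Even degrees: blocks with values `γ n^e`, `n` a sum of squares (all of `K`). -/
theorem even_diag (n s₀ e r N R : ℕ) (he : 1 ≤ e) : ∃ s : ℕ, ∀ (F K : Type) [Field F]
    [IsRealClosed F] [Field K] [Algebra F K], Circ K n → Lev K s₀ → Iso K (2 * e - 1) e N →
      Iso K e r R → DiagIso K (2 * e) r s := by
  classical
  obtain ⟨S, hS⟩ := exists_const e N he
  obtain ⟨s₁, h₁⟩ := block n e r S (s₀ + 1) he
  refine ⟨R * s₁, ?_⟩
  intro F K _ _ _ _ hC hL hN hR γ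
  have hK : CharZero K := charZero_of_injective_algebraMap (algebraMap F K).injective
  have hb := hS F K hN
  have h2e : 2 * e ≠ 0 := by omega
  by_cases hz : ∃ j : Fin R, ∃ z : Fin s₁ → K, z ≠ 0 ∧
      ∀ ρ, ∑ l, γ (finProdFinEquiv (j, l)) ρ * z l ^ (2 * e) = 0
  · obtain ⟨j, z, hz0, hz1⟩ := hz
    obtain ⟨l, hl⟩ := Function.ne_iff.1 hz0
    let Z : Fin R → Fin s₁ → K := fun j' l => if j' = j then z l else 0
    refine ⟨fun i => Z (finProdFinEquiv.symm i).1 (finProdFinEquiv.symm i).2, ?_, ?_⟩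
    · intro h0
      apply hl
      have := congrFun h0 (finProdFinEquiv (j, l))
      simp only [Equiv.symm_apply_apply, Z, if_true] at this
      exact this
    · intro ρ
      rw [E2_sum γ ρ Z (2 * e)]
      refine Finset.sum_eq_zero fun j' _ => ?_
      by_cases hj : j' = j
      · subst hj
        simp only [Z, if_true]
        exact hz1 ρ
      · simp only [Z, if_neg hj]
        refine Finset.sum_eq_zero fun l _ => ?_
        rw [zero_pow h2e, mul_zero]
  · push Not at hz
    have hblk : ∀ j : Fin R, ∃ γ'' : Fin r → K, γ'' ≠ 0 ∧ ∀ y : Fin (s₀ + 1) → K,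
        ∃ z : Fin s₁ → K, ∀ ρ, ∑ l, γ (finProdFinEquiv (j, l)) ρ * z l ^ (2 * e) =
          γ'' ρ * (∑ i, y i ^ 2) ^ e := by
      intro j
      rcases h₁ K hC hb (fun l => γ (finProdFinEquiv (j, l))) with ⟨z, hz0, hz1⟩ | h
      · obtain ⟨ρ, hρ⟩ := hz j z hz0
        exact absurd (hz1 ρ) hρ
      · exact h
    choose g hg0 hg using hblk
    obtain ⟨ν, hν0, hν⟩ := hR R le_rfl (fun _ => e)
      (fun ρ τ => ∑ j, g j ρ * ∏ i, (if τ i = j then (1 : K) else 0)) (fun _ => ⟨he, le_rfl⟩)
    have hν' : ∀ ρ, ∑ j, g j ρ * ν j ^ e = 0 := by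
      intro ρ
      rw [← E2_ev (fun j => g j ρ) e ν]
      exact hν ρ
    choose y hy using fun j => sum_sq_univ hL (ν j)
    choose z hz' using fun j => hg j (y j)
    refine ⟨fun i => z (finProdFinEquiv.symm i).1 (finProdFinEquiv.symm i).2, ?_, ?_⟩
    · intro h0
      apply hν0
      funext j
      by_contra hj
      apply hg0 j
      funext ρ
      have h1 := hz' j ρ
      have h2 : ∀ l, z j l = 0 := by
        intro l
        have := congrFun h0 (finProdFinEquiv (j, l))
        simp only [Equiv.symm_apply_apply] at this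
        exact this
      rw [hy j] at h1
      have h3 : ∑ l, γ (finProdFinEquiv (j, l)) ρ * z j l ^ (2 * e) = 0 :=
        Finset.sum_eq_zero fun l _ => by rw [h2 l, zero_pow h2e, mul_zero]
      rw [h3] at h1
      rcases mul_eq_zero.1 h1.symm with h4 | h4
      · exact h4
      · exact absurd ((pow_eq_zero_iff (by omega)).1 h4) hj
    · intro ρ
      rw [E2_sum γ ρ z (2 * e), ← hν' ρ]
      refine Finset.sum_congr rfl fun j _ => ?_
      rw [hz' j ρ, hy j]

end LWR
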