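import Pool.Agent.Lib.LW.BU
import Pool.Agent.Lib.LW.Cnt
import Pool.Agent.Lib.LWR.Gr
import Pool.Agent.Lib.RC.Tra

/-!
The circle property over real closed fields: the circle Borsuk-Ulam theorem for polynomial systems
is transferred from the real numbers to every real closed field.
-/

namespace LWR

open LW

/-- Functoriality of `K[i]`. -/
def cxMap {A B : Type*} [CommRing A] [CommRing B] (φ : A →+* B) : Cx A →+* Cx B where
  toFun z := ⟨φ z.re, φ z.im⟩
  map_one' := by
    ext <;> simp [QuadraticAlgebra.re_one, QuadraticAlgebra.im_one]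
  map_mul' x y := by
    ext <;> simp
  map_zero' := by ext <;> simp
  map_add' x y := by ext <;> simp

theorem cxMap_re {A B : Type*} [CommRing A] [CommRing B] (φ : A →+* B) (z : Cx A) :
    (cxMap φ z).re = φ z.re := rfl

theorem cxMap_im {A B : Type*} [CommRing A] [CommRing B] (φ : A →+* B) (z : Cx A) :
    (cxMap φ z).im = φ z.im := rfl

theorem cxMap_star {A B : Type*} [CommRing A] [CommRing B] (φ : A →+* B) (z : Cx A) :
    cxMap φ (star z) = star (cxMap φ z) := by
  ext <;> simp [cxMap_re, cxMap_im]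

theorem cxMap_algebraMap {A B : Type*} [CommRing A] [CommRing B] (φ : A →+* B) (a : A) :
    cxMap φ (algebraMap A (Cx A) a) = algebraMap B (Cx B) (φ a) := by
  ext <;> simp [cxMap_re, cxMap_im]

theorem star_alg {A : Type*} [CommRing A] (x : A) :
    star (algebraMap A (Cx A) x) = algebraMap A (Cx A) x := by
  ext <;> simp

theorem prod_ite' {R : Type*} [CommMonoid R] (D a : ℕ) (ha : a ≤ D) (x y : R) :
    ∏ i : Fin D, (if (i : ℕ) < a then x else y) = x ^ a * y ^ (D - a) := by
  obtain ⟨b, rfl⟩ := Nat.exists_eq_add_of_le ha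
  rw [Fin.prod_univ_add]
  simp

theorem expand' {R I : Type*} [CommSemiring R] [Fintype I] [DecidableEq I] (D a : ℕ)
    (ha : a ≤ D) (x y : I → R) :
    (∑ k, x k) ^ a * (∑ k, y k) ^ (D - a) =
      ∑ κ : Fin D → I, ∏ i : Fin D, (if (i : ℕ) < a then x (κ i) else y (κ i)) := by
  have h := Finset.prod_univ_sum (fun _ : Fin D => (Finset.univ : Finset I))
    (fun i k => if (i : ℕ) < a then x k else y k)
  rw [Fintype.piFinset_univ] at h
  rw [← h, ← prod_ite' D a ha]
  refine Finset.prod_congr rfl fun i _ => ?_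
  split_ifs <;> rfl

/-- The circle-equivariant polynomial. -/
def EX {s r D : ℕ} {I I' : Type} [Fintype I] [DecidableEq I] (A : Type) [CommRing A]
    (C : Fin s × Fin r × (Fin D → I) × I' → A) (v : Fin s × I → Cx A) (ρ : Fin r) (a : ℕ)
    (q : I') : Cx A :=
  ∑ l : Fin s, ∑ κ : Fin D → I, algebraMap A (Cx A) (C (l, ρ, κ, q)) *
    ∏ i : Fin D, (if (i : ℕ) < a then v (l, κ i) else star (v (l, κ i)))

theorem cxMap_EX {s r D : ℕ} {I I' : Type} [Fintype I] [DecidableEq I] {A B : Type} [CommRing A]
    [CommRing B] (φ : A →+* B)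
    (C : Fin s × Fin r × (Fin D → I) × I' → A) (v : Fin s × I → Cx A) (ρ : Fin r) (a : ℕ)
    (q : I') : cxMap φ (EX A C v ρ a q) = EX B (fun t => φ (C t)) (fun k => cxMap φ (v k)) ρ a q := by
  simp only [EX, map_sum, map_mul, cxMap_algebraMap, map_prod]
  refine Finset.sum_congr rfl fun l _ => Finset.sum_congr rfl fun κ _ => ?_
  congr 1
  refine Finset.prod_congr rfl fun i _ => ?_
  split_ifs
  · rfl
  · exact cxMap_star φ _

/-- The system as a natural expression. -/
def sysE {s r D : ℕ} {I I' : Type} [Fintype I] [DecidableEq I] (A : Type) [CommRing A]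
    (C : Fin s × Fin r × (Fin D → I) × I' → A) (v : Option ((Fin s × I) × Bool) → A) :
    Option ((Fin r × Fin (D + 1) × I') × Bool) → A
  | none => (∑ k : Fin s × I, (v (some (k, false)) ^ 2 + v (some (k, true)) ^ 2)) * v none - 1
  | some ((ρ, a, q), b) => if 2 * (a : ℕ) = D then 0 else
      if b then (EX A C (fun k => ⟨v (some (k, false)), v (some (k, true))⟩) ρ a q).im else
        (EX A C (fun k => ⟨v (some (k, false)), v (some (k, true))⟩) ρ a q).re

/-- The homomorphism `ℂ → ℝ[i]`. -/
noncomputable def phiC : ℂ →+* Cx ℝ where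
  toFun z := ⟨z.re, z.im⟩
  map_one' := by
    ext <;> simp [QuadraticAlgebra.re_one, QuadraticAlgebra.im_one]
  map_mul' x y := by
    ext
    · simp
      ring
    · simp
  map_zero' := by ext <;> simp
  map_add' x y := by ext <;> simp

theorem phiC_conj (z : ℂ) : phiC ((starRingEnd ℂ) z) = star (phiC z) := by
  ext <;> simp [phiC]

theorem phiC_ofReal (x : ℝ) : phiC (x : ℂ) = algebraMap ℝ (Cx ℝ) x := by
  ext <;> simp [phiC]

theorem circle_real {s r D : ℕ} {I I' : Type} [Fintype I] [DecidableEq I] [Fintype I']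
    (hcard : r * (D + 1) * Fintype.card I' < s * Fintype.card I)
    (C : Fin s × Fin r × (Fin D → I) × I' → ℝ) :
    ∃ v : Fin s × I → ℂ, v ≠ 0 ∧ ∀ ρ (a : ℕ) q, a ≤ D → 2 * a ≠ D →
      ∑ l : Fin s, ∑ κ : Fin D → I, (C (l, ρ, κ, q) : ℂ) *
        ∏ i : Fin D, (if (i : ℕ) < a then v (l, κ i) else (starRingEnd ℂ) (v (l, κ i))) = 0 := by
  classical
  let J := Fin r × Fin (D + 1) × I'
  let ι := Fin s × I
  have hcard : Fintype.card J < Fintype.card ι := by
    simp only [J, ι, Fintype.card_prod, Fintype.card_fin]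
    calc r * ((D + 1) * Fintype.card I') = r * (D + 1) * Fintype.card I' := by ring
      _ < s * Fintype.card I := hcard
  let G : J → (ι → ℂ) → ℂ := fun j v =>
    if 2 * (j.2.1 : ℕ) = D then 0 else
      ∑ l : Fin s, ∑ κ : Fin D → I, (C (l, j.1, κ, j.2.2) : ℂ) *
        ∏ i : Fin D, (if (i : ℕ) < (j.2.1 : ℕ) then v (l, κ i) else
          (starRingEnd ℂ) (v (l, κ i)))
  let w : J → ℤ := fun j => if 2 * (j.2.1 : ℕ) = D then 1 else 2 * (j.2.1 : ℕ) - D
  have hGc : ∀ j, Continuous (G j) := by
    intro j
    simp only [G]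
    by_cases h2 : 2 * (j.2.1 : ℕ) = D
    · simp only [if_pos h2]
      exact continuous_const
    · simp only [if_neg h2]
      refine continuous_finsetSum _ fun l _ => continuous_finsetSum _ fun κ _ =>
        continuous_const.mul (continuous_finsetProd _ fun i _ => ?_)
      split_ifs
      · exact continuous_apply _
      · exact Complex.continuous_conj.comp (continuous_apply _)
  have hw : ∀ j, w j ≠ 0 := by
    intro j
    simp only [w]
    split_ifs <;> omega
  have hG : ∀ j v (u : ℂ), ‖u‖ = 1 → G j (fun k => u * v k) = u ^ w j * G j v := by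
    intro j v u hu
    have hja : (j.2.1 : ℕ) ≤ D := Nat.lt_succ_iff.1 j.2.1.2
    simp only [G, w]
    by_cases h2 : 2 * (j.2.1 : ℕ) = D
    · simp [if_pos h2]
    · simp only [if_neg h2]
      have hu0 : u ≠ 0 := by
        rintro rfl
        simp at hu
      have hcu : (starRingEnd ℂ) u = u⁻¹ := by
        rw [Complex.inv_def, Complex.normSq_eq_norm_sq, hu]
        simp
      rw [Finset.mul_sum]
      refine Finset.sum_congr rfl fun l _ => ?_
      rw [Finset.mul_sum]
      refine Finset.sum_congr rfl fun κ _ => ?_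
      have h6 : ∏ i : Fin D, (if (i : ℕ) < (j.2.1 : ℕ) then u * v (l, κ i) else
          (starRingEnd ℂ) (u * v (l, κ i))) =
          (∏ i : Fin D, (if (i : ℕ) < (j.2.1 : ℕ) then u else u⁻¹)) *
            ∏ i : Fin D, (if (i : ℕ) < (j.2.1 : ℕ) then v (l, κ i) else
              (starRingEnd ℂ) (v (l, κ i))) := by
        rw [← Finset.prod_mul_distrib]
        refine Finset.prod_congr rfl fun i _ => ?_
        split_ifs
        · rfl
        · rw [map_mul, hcu]
      rw [h6, prod_ite' D _ hja]
      have h7 : u ^ (j.2.1 : ℕ) * u⁻¹ ^ (D - (j.2.1 : ℕ)) = u ^ (2 * ((j.2.1 : ℕ) : ℤ) - D) := by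
        rw [inv_pow, ← zpow_natCast, ← zpow_natCast, ← zpow_neg, ← zpow_add₀ hu0]
        congr 1
        rw [Nat.cast_sub hja]
        ring
      rw [h7]
      ring
  obtain ⟨v, hv0, hv⟩ := circle_BU hcard G hGc w hw hG
  refine ⟨v, hv0, fun ρ a q ha h2 => ?_⟩
  have h5 := hv (ρ, ⟨a, by omega⟩, q)
  simp only [G, if_neg h2] at h5
  exact h5

/-- The circle system over a real closed field. -/
theorem circle_rc {s r D : ℕ} {I I' : Type} [Fintype I] [DecidableEq I] [Fintype I']
    (hcard : r * (D + 1) * Fintype.card I' < s * Fintype.card I)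
    (R : Type) [Field R] [IsRealClosed R] (C : Fin s × Fin r × (Fin D → I) × I' → R) :
    ∃ v : Fin s × I → Cx R, v ≠ 0 ∧ ∀ ρ (a : ℕ) q, a ≤ D → 2 * a ≠ D → EX R C v ρ a q = 0 := by
  obtain ⟨v, hv⟩ := RC.transfer (L := Fin s × Fin r × (Fin D → I) × I')
    (J := Option ((Fin r × Fin (D + 1) × I') × Bool)) (V := Option ((Fin s × I) × Bool))
    (fun A _ C v j => sysE A C v j) (by
      intro A B _ _ φ C v j
      rcases j with _ | ⟨⟨ρ, a, q⟩, b⟩
      · simp only [sysE, map_sub, map_mul, map_sum, map_add, map_pow, map_one]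
      · simp only [sysE]
        have h1 := cxMap_EX φ C (fun k => (⟨v (some (k, false)), v (some (k, true))⟩ : Cx A)) ρ a q
        have h2 : (fun k => cxMap φ (⟨v (some (k, false)), v (some (k, true))⟩ : Cx A)) =
          fun k => (⟨φ (v (some (k, false))), φ (v (some (k, true)))⟩ : Cx B) := rfl
        rw [h2] at h1
        rw [← h1]
        by_cases h3 : 2 * (a : ℕ) = D
        · simp [h3]
        · cases b <;> simp [h3, cxMap_re, cxMap_im]) (by
      intro C
      obtain ⟨v, hv0, hv⟩ := circle_real hcard C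
      refine ⟨fun j => match j with
        | none => (∑ k : Fin s × I, ((v k).re ^ 2 + (v k).im ^ 2))⁻¹
        | some (k, b) => if b then (v k).im else (v k).re, fun j => ?_⟩
      rcases j with _ | ⟨⟨ρ, a, q⟩, b⟩
      · simp only [sysE]
        have h1 : 0 < ∑ k : Fin s × I, ((v k).re ^ 2 + (v k).im ^ 2) := by
          obtain ⟨k, hk⟩ := Function.ne_iff.1 hv0
          refine Finset.sum_pos' (fun j _ => by positivity) ⟨k, Finset.mem_univ k, ?_⟩
          by_contra hcon
          have h2 : (v k).re ^ 2 + (v k).im ^ 2 = 0 := by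
            have : 0 ≤ (v k).re ^ 2 + (v k).im ^ 2 := by positivity
            linarith [not_lt.1 hcon]
          apply hk
          have h3 : (v k).re ^ 2 = 0 := by nlinarith [sq_nonneg (v k).re, sq_nonneg (v k).im]
          have h4 : (v k).im ^ 2 = 0 := by nlinarith [sq_nonneg (v k).re, sq_nonneg (v k).im]
          exact Complex.ext (by simpa using h3) (by simpa using h4)
        simp only [Bool.false_eq_true, if_false, if_true]
        rw [mul_inv_cancel₀ h1.ne', sub_self]
      · simp only [sysE, Bool.false_eq_true, if_false, if_true]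
        by_cases h3 : 2 * (a : ℕ) = D
        · simp [h3]
        · have h1 := congrArg phiC (hv ρ a q (Nat.lt_succ_iff.1 a.2) h3)
          have h2 : EX ℝ C (fun k => (⟨(v k).re, (v k).im⟩ : Cx ℝ)) ρ a q = 0 := by
            rw [← map_zero phiC, ← h1]
            simp only [EX, map_sum, map_mul, phiC_ofReal, map_prod]
            refine Finset.sum_congr rfl fun l _ => Finset.sum_congr rfl fun κ _ => ?_
            congr 1
            refine Finset.prod_congr rfl fun i _ => ?_
            split_ifs
            · rfl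
            · rw [phiC_conj]
              rfl
          rw [h2]
          simp) R C
  refine ⟨fun k => ⟨v (some (k, false)), v (some (k, true))⟩, ?_, ?_⟩
  · intro h0
    have h1 := hv none
    simp only [sysE] at h1
    have h2 : ∀ k, v (some (k, false)) = 0 ∧ v (some (k, true)) = 0 := by
      intro k
      have h3 := congrFun h0 k
      exact ⟨congrArg QuadraticAlgebra.re h3, congrArg QuadraticAlgebra.im h3⟩
    simp [h2] at h1
  · intro ρ a q ha h2
    have h3 := hv (some ((ρ, ⟨a, by omega⟩, q), false))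
    have h4 := hv (some ((ρ, ⟨a, by omega⟩, q), true))
    simp only [sysE, if_neg h2, Bool.false_eq_true, if_false, if_true] at h3 h4
    ext
    · simpa using h3
    · simpa using h4

theorem circ_of_growth (R K : Type) [Field R] [IsRealClosed R] [Field K] [Algebra R K] (n : ℕ)
    (h : Growth R K n) : Circ K n := by
  classical
  intro D r s γ hs
  obtain ⟨E, c, hE, hM⟩ := h (Finset.univ.image fun p : Fin s × Fin r => γ p.1 p.2) D
  obtain ⟨M, hM0, hlt⟩ := exists_M (r * (D + 1)) D n s c hs
  obtain ⟨e, e', hli, hsp⟩ := hM M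
  have hC : ∀ (l : Fin s) (ρ : Fin r) (κ : Fin D → Fin E × (Fin n → Fin M)),
      ∃ C : Fin E × (Fin n → Fin (c + D * M)) → R,
        ∑ q, C q • e' q = γ l ρ * ∏ i, e (κ i) := by
    intro l ρ κ
    have h1 := hsp (γ l ρ) (Finset.mem_image.2 ⟨(l, ρ), Finset.mem_univ _, rfl⟩) κ
    exact (Submodule.mem_span_range_iff_exists_fun R).1 h1
  choose C hC using hC
  have hcard : r * (D + 1) * Fintype.card (Fin E × (Fin n → Fin (c + D * M))) <
      s * Fintype.card (Fin E × (Fin n → Fin M)) := by
    simp only [Fintype.card_prod, Fintype.card_fin, Fintype.card_fun]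
    calc r * (D + 1) * (E * (c + D * M) ^ n) = E * (r * (D + 1) * (c + D * M) ^ n) := by ring
      _ < E * (s * M ^ n) := Nat.mul_lt_mul_of_pos_left hlt hE
      _ = s * (E * M ^ n) := by ring
  obtain ⟨v, hv0, hv⟩ := circle_rc hcard R (fun t => C t.1 t.2.1 t.2.2.1 t.2.2.2)
  let ψ := cxMap (algebraMap R K)
  refine ⟨fun l => ∑ k, ψ (v (l, k)) * algebraMap K (Cx K) (e k), ?_, ?_⟩
  · intro hw0
    apply hv0
    funext p
    obtain ⟨l, k⟩ := p
    have hl := congrFun hw0 l
    have hre := congrArg QuadraticAlgebra.re hl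
    have him := congrArg QuadraticAlgebra.im hl
    have e1 : (∑ k, ψ (v (l, k)) * algebraMap K (Cx K) (e k)).re =
        ∑ k, (v (l, k)).re • e k := by
      rw [← QuadraticAlgebra.reₗ_apply, map_sum]
      refine Finset.sum_congr rfl fun k _ => ?_
      simp [ψ, cxMap_re, Algebra.smul_def]
    have e2 : (∑ k, ψ (v (l, k)) * algebraMap K (Cx K) (e k)).im =
        ∑ k, (v (l, k)).im • e k := by
      rw [← QuadraticAlgebra.imₗ_apply, map_sum]
      refine Finset.sum_congr rfl fun k _ => ?_
      simp [ψ, cxMap_im, Algebra.smul_def]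
    have h1 := Fintype.linearIndependent_iff.1 hli (fun k => (v (l, k)).re)
      (by rw [← e1]; exact hre) k
    have h2 := Fintype.linearIndependent_iff.1 hli (fun k => (v (l, k)).im)
      (by rw [← e2]; exact him) k
    exact QuadraticAlgebra.ext h1 h2
  · intro ρ a b hab hne
    have ha : a ≤ D := by omega
    have hb : b = D - a := by omega
    have h2a : ¬ 2 * a = D := by omega
    have hterm : ∀ l, γ l ρ • ((∑ k, ψ (v (l, k)) * algebraMap K (Cx K) (e k)) ^ a *
        star (∑ k, ψ (v (l, k)) * algebraMap K (Cx K) (e k)) ^ b) =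
        ∑ q, ψ (∑ κ : Fin D → Fin E × (Fin n → Fin M), algebraMap R (Cx R) (C l ρ κ q) *
          ∏ i : Fin D, (if (i : ℕ) < a then v (l, κ i) else star (v (l, κ i)))) *
            algebraMap K (Cx K) (e' q) := by
      intro l
      rw [star_sum, hb, expand' D a ha]
      have h3 : ∀ κ : Fin D → Fin E × (Fin n → Fin M),
          ∏ i : Fin D, (if (i : ℕ) < a then
            ψ (v (l, κ i)) * algebraMap K (Cx K) (e (κ i)) else
            star (ψ (v (l, κ i)) * algebraMap K (Cx K) (e (κ i)))) =
          ψ (∏ i : Fin D, (if (i : ℕ) < a then v (l, κ i) else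
            star (v (l, κ i)))) * algebraMap K (Cx K) (∏ i, e (κ i)) := by
        intro κ
        rw [map_prod, map_prod, ← Finset.prod_mul_distrib]
        refine Finset.prod_congr rfl fun i _ => ?_
        split_ifs
        · rfl
        · rw [star_mul', star_alg, cxMap_star]
      simp only [h3]
      rw [Finset.smul_sum]
      have h4 : ∀ κ : Fin D → Fin E × (Fin n → Fin M),
          γ l ρ • (ψ (∏ i : Fin D, (if (i : ℕ) < a then v (l, κ i) else
            star (v (l, κ i)))) * algebraMap K (Cx K) (∏ i, e (κ i))) =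
          ∑ q, ψ (algebraMap R (Cx R) (C l ρ κ q) * ∏ i : Fin D, (if (i : ℕ) < a then
            v (l, κ i) else star (v (l, κ i)))) * algebraMap K (Cx K) (e' q) := by
        intro κ
        rw [Algebra.smul_def, mul_left_comm, ← map_mul, ← hC l ρ κ, map_sum, Finset.mul_sum]
        refine Finset.sum_congr rfl fun q _ => ?_
        rw [map_mul ψ, cxMap_algebraMap, Algebra.smul_def, map_mul]
        ring
      simp only [h4]
      rw [Finset.sum_comm]
      refine Finset.sum_congr rfl fun q _ => ?_
      rw [map_sum, Finset.sum_mul]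
    have hfin : ∑ l, γ l ρ • ((∑ k, ψ (v (l, k)) * algebraMap K (Cx K) (e k)) ^ a *
        star (∑ k, ψ (v (l, k)) * algebraMap K (Cx K) (e k)) ^ b) = 0 := by
      simp only [hterm]
      rw [Finset.sum_comm]
      refine Finset.sum_eq_zero fun q _ => ?_
      rw [← Finset.sum_mul, ← map_sum]
      have h5 := hv ρ a q ha h2a
      simp only [EX] at h5
      rw [h5, map_zero, zero_mul]
    exact hfin

end LWR
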