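import Pool.Agent.Lib.LWR.Ci
import Pool.Agent.Lib.LW.Hil

/-!
The constants `b` over a real closed field; Hilbert's identity and the toggle are transferred from
the real numbers.
-/

namespace LWR

open LW

/-- The difference of the two sides of Hilbert's identity. -/
private noncomputable def hilD (S M e : ℕ) (A : Type) [CommRing A] (a : Fin S × Fin M → A) :
    MvPolynomial (Fin M) A :=
  ∑ k, (∑ i, MvPolynomial.C (a (k, i)) * MvPolynomial.X i) ^ (2 * e) -
    (∑ i, MvPolynomial.X i ^ 2) ^ e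

/-- Hilbert's identity over real closed fields. -/
theorem hilbert_rc (M e : ℕ) : ∃ S : ℕ, ∀ (R : Type) [Field R] [IsRealClosed R],
    ∃ a : Fin S → Fin M → R, ∀ (K : Type) [CommRing K] [Algebra R K] (x : Fin M → K),
      ∑ k, (∑ i, algebraMap R K (a k i) * x i) ^ (2 * e) = (∑ i, x i ^ 2) ^ e := by
  obtain ⟨S, a, ha⟩ := hilbert M e
  refine ⟨S, fun R _ _ => ?_⟩
  obtain ⟨b, hb⟩ := RC.transfer (L := Empty) (J := Fin M →₀ ℕ) (V := Fin S × Fin M)
    (fun A _ _ v j => (hilD S M e A v).coeff j) (by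
      intro A B _ _ φ _ v j
      show φ ((hilD S M e A v).coeff j) = (hilD S M e B fun k => φ (v k)).coeff j
      rw [← MvPolynomial.coeff_map]
      congr 1
      simp [hilD]) (by
      intro _
      refine ⟨fun t => a t.1 t.2, fun j => ?_⟩
      have h1 : hilD S M e ℝ (fun t => a t.1 t.2) = 0 := by
        rw [hilD, sub_eq_zero]
        exact ha (MvPolynomial (Fin M) ℝ) MvPolynomial.X
      show (hilD S M e ℝ fun t => a t.1 t.2).coeff j = 0
      rw [h1, MvPolynomial.coeff_zero]) R (fun t => t.elim)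
  refine ⟨fun k i => b (k, i), fun K _ _ x => ?_⟩
  have h1 : hilD S M e R b = 0 := by
    ext j
    rw [MvPolynomial.coeff_zero]
    exact hb j
  have h2 := congrArg (MvPolynomial.aeval x) h1
  rw [hilD, map_sub, map_zero, sub_eq_zero] at h2
  simpa using h2

/-- The toggle over real closed fields. -/
theorem toggle_rc (e : ℕ) : ∃ T : ℕ, ∀ (R : Type) [Field R] [IsRealClosed R],
    ∃ v v' : Fin T → R,
    (∀ r, 2 ≤ r → r ≤ e → ∑ i, v i ^ (2 * r) = ∑ i, v' i ^ (2 * r)) ∧
    ∑ i, v i ^ 2 ≠ ∑ i, v' i ^ 2 := by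
  obtain ⟨T, v, v', hv, hne⟩ := toggle e
  refine ⟨T, fun R _ _ => ?_⟩
  obtain ⟨b, hb⟩ := RC.transfer (L := Empty) (J := Option (Fin (e + 1)))
    (V := Option (Fin T × Bool))
    (fun A _ _ u j => match j with
      | none => (∑ i, u (some (i, false)) ^ 2 - ∑ i, u (some (i, true)) ^ 2) * u none - 1
      | some r => if 2 ≤ (r : ℕ) then
        ∑ i, u (some (i, false)) ^ (2 * (r : ℕ)) - ∑ i, u (some (i, true)) ^ (2 * (r : ℕ))
          else 0) (by
      intro A B _ _ φ _ u j
      rcases j with _ | r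
      · simp
      · by_cases h : 2 ≤ (r : ℕ)
        · simp [h]
        · simp [h]) (by
      intro _
      refine ⟨fun j => match j with
        | none => (∑ i, v i ^ 2 - ∑ i, v' i ^ 2)⁻¹
        | some (i, b) => if b then v' i else v i, fun j => ?_⟩
      rcases j with _ | r
      · simp only [Bool.false_eq_true, if_false, if_true]
        rw [mul_inv_cancel₀ (sub_ne_zero.2 hne), sub_self]
      · simp only [Bool.false_eq_true, if_false, if_true]
        by_cases h : 2 ≤ (r : ℕ)
        · rw [if_pos h, hv r h (Nat.lt_succ_iff.1 r.2), sub_self]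
        · rw [if_neg h]) R (fun t => t.elim)
  refine ⟨fun i => b (some (i, false)), fun i => b (some (i, true)), fun r h2 h3 => ?_, fun h => ?_⟩
  · have h4 := hb (some ⟨r, by omega⟩)
    simp only [if_pos h2] at h4
    exact sub_eq_zero.1 h4
  · have h4 := hb none
    simp only [h, sub_self, zero_mul, zero_sub] at h4
    exact one_ne_zero (neg_eq_zero.1 h4)

/-- Sums of powers of linear forms are forms. -/
private theorem ev_pow {K : Type*} [CommRing K] {ι κ : Type*} [Fintype ι] [Fintype κ]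
    (A : κ → ι → K) (n : ℕ) (x : ι → K) :
    ev (fun τ : Fin n → ι => ∑ k, ∏ j, A k (τ j)) x = ∑ k, (∑ i, A k i * x i) ^ n := by
  classical
  unfold ev
  simp only [Finset.sum_mul]
  rw [Finset.sum_comm]
  refine Finset.sum_congr rfl fun k _ => ?_
  rw [Fintype.sum_pow]
  refine Finset.sum_congr rfl fun τ _ => ?_
  rw [Finset.prod_mul_distrib]

/-- A matrix which is injective over `R` is injective over `K`. -/
private theorem inj_ext {R : Type} [Field R] {S M : ℕ} (a : Fin S → Fin M → R)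
    (ha : ∀ x : Fin M → R, (∀ k, ∑ i, a k i * x i = 0) → x = 0) (K : Type) [Field K]
    [Algebra R K] (x : Fin M → K) (hx : ∀ k, ∑ i, algebraMap R K (a k i) * x i = 0) :
    x = 0 := by
  classical
  let A : Matrix (Fin S) (Fin M) R := Matrix.of a
  have hker : LinearMap.ker (Matrix.toLin' A) = ⊥ := by
    rw [LinearMap.ker_eq_bot']
    intro y hy
    refine ha y fun k => ?_
    have h1 := congrFun hy k
    rw [Matrix.toLin'_apply] at h1
    exact h1
  obtain ⟨g, hg⟩ := (Matrix.toLin' A).exists_leftInverse_of_injective hker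
  have hGA : LinearMap.toMatrix' g * A = 1 := by
    have h1 : LinearMap.toMatrix' (g.comp (Matrix.toLin' A)) = 1 := by
      rw [hg, LinearMap.toMatrix'_id]
    rwa [LinearMap.toMatrix'_comp, LinearMap.toMatrix'_toLin'] at h1
  have hGA' : (LinearMap.toMatrix' g).map (algebraMap R K) * A.map (algebraMap R K) = 1 := by
    rw [← Matrix.map_mul, hGA, Matrix.map_one _ (map_zero _) (map_one _)]
  have h2 : (A.map (algebraMap R K)).mulVec x = 0 := by
    funext k
    exact hx k
  have h3 : (1 : Matrix (Fin M) (Fin M) K).mulVec x = 0 := by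
    rw [← hGA', ← Matrix.mulVec_mulVec, h2, Matrix.mulVec_zero]
  rwa [Matrix.one_mulVec] at h3

/-- If all systems of `e` forms of degrees at most `2e - 1` in `N` variables have nontrivial
zeros, there are `b_1, ..., b_S` in `K` (`S` depends only on `e`, `N`) with `∑ b² ≠ 0` and
`∑ b^(2r) = 0` for `2 ≤ r ≤ e`. -/
theorem exists_const (e N : ℕ) (he : 1 ≤ e) : ∃ S : ℕ, ∀ (R K : Type) [Field R]
    [IsRealClosed R] [Field K] [Algebra R K],
    Iso K (2 * e - 1) e N → ∃ b : Fin S → K, ∑ k, b k ^ 2 ≠ 0 ∧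
      ∀ r, 2 ≤ r → r ≤ e → ∑ k, b k ^ (2 * r) = 0 := by
  rcases Nat.lt_or_ge e 2 with he2 | he2
  · refine ⟨1, fun R K _ _ _ _ _ => ⟨fun _ => 1, by simp, fun r h2 h3 => ?_⟩⟩
    omega
  obtain ⟨S₀, hS₀⟩ := hilbert_rc (N + 1) e
  obtain ⟨T, hT⟩ := toggle_rc e
  refine ⟨T * S₀, fun R K _ _ _ _ hK => ?_⟩
  obtain ⟨_, _⟩ := RC.exists_order R
  obtain ⟨a, ha⟩ := hS₀ R
  obtain ⟨v, v', hv, hne⟩ := hT R
  have hinj : ∀ x : Fin (N + 1) → R, (∀ k, ∑ i, a k i * x i = 0) → x = 0 := by
    intro x hx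
    have h1 := ha R x
    simp only [Algebra.algebraMap_self, RingHom.id_apply] at h1
    have h2 : ∑ k, (∑ i, a k i * x i) ^ (2 * e) = 0 := by
      refine Finset.sum_eq_zero fun k _ => ?_
      rw [hx k, zero_pow (by omega)]
    rw [h2] at h1
    have h3 : ∑ i, x i ^ 2 = 0 := eq_zero_of_pow_eq_zero h1.symm
    have h4 := (Finset.sum_eq_zero_iff_of_nonneg fun i _ => sq_nonneg (x i)).1 h3
    funext i
    exact eq_zero_of_pow_eq_zero (h4 i (Finset.mem_univ i))
  let A : Fin S₀ → Fin (N + 1) → K := fun k i => algebraMap R K (a k i)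
  let I : Fin (N + 1) → Fin (N + 1) → K := fun k i => if k = i then 1 else 0
  let deg : Fin e → ℕ := fun ρ => if ρ.val ≤ 1 then 2 else 2 * ρ.val
  let c : ∀ ρ : Fin e, (Fin (deg ρ) → Fin (N + 1)) → K := fun ρ τ =>
    if ρ.val ≤ 1 then ∑ k, ∏ j, I k (τ j) else ∑ k, ∏ j, A k (τ j)
  obtain ⟨x, hx0, hx⟩ := hK (N + 1) (by omega) deg c (by
    intro ρ
    have h1 := ρ.2
    show 1 ≤ (if ρ.val ≤ 1 then 2 else 2 * ρ.val) ∧ (if ρ.val ≤ 1 then 2 else 2 * ρ.val) ≤ 2 * e - 1
    split_ifs <;> omega)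
  let b₀ : Fin S₀ → K := fun k => ∑ i, algebraMap R K (a k i) * x i
  have hsq : ∑ i, x i ^ 2 = 0 := by
    have h1 := hx ⟨0, by omega⟩
    have h2 : c ⟨0, by omega⟩ = fun τ => ∑ k, ∏ j, I k (τ j) := by
      funext τ
      exact if_pos (by simp)
    rw [h2, ev_pow] at h1
    have h3 : deg ⟨0, by omega⟩ = 2 := if_pos (by simp)
    rw [h3] at h1
    rw [← h1]
    refine Finset.sum_congr rfl fun k _ => ?_
    congr 1
    simp [I]
  have hpow : ∀ r, 2 ≤ r → r ≤ e → ∑ k, b₀ k ^ (2 * r) = 0 := by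
    intro r h2 h3
    rcases Nat.lt_or_ge r e with h4 | h4
    · have h5 := hx ⟨r, h4⟩
      have h6 : c ⟨r, h4⟩ = fun τ => ∑ k, ∏ j, A k (τ j) := by
        funext τ
        exact if_neg (by show ¬ r ≤ 1; omega)
      rw [h6, ev_pow] at h5
      have h7 : deg ⟨r, h4⟩ = 2 * r := if_neg (by show ¬ r ≤ 1; omega)
      rw [h7] at h5
      exact h5
    · have h5 : r = e := le_antisymm h3 h4
      rw [h5]
      have h6 := ha K x
      rw [hsq, zero_pow (by omega)] at h6
      exact h6
  obtain ⟨k₀, hk₀⟩ : ∃ k, b₀ k ≠ 0 := by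
    by_contra hcon
    push Not at hcon
    exact hx0 (inj_ext a hinj K x hcon)
  let w : Fin S₀ → Fin T → R := fun k i => if k = k₀ then v' i else v i
  have hsum : ∀ (u : Fin S₀ → Fin T → R) (n : ℕ),
      ∑ l : Fin (T * S₀), (algebraMap R K (u (finProdFinEquiv.symm l).2
        (finProdFinEquiv.symm l).1) * b₀ (finProdFinEquiv.symm l).2) ^ n =
      ∑ k, algebraMap R K (∑ i, u k i ^ n) * b₀ k ^ n := by
    intro u n
    rw [Equiv.sum_comp finProdFinEquiv.symm fun q : Fin T × Fin S₀ =>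
      (algebraMap R K (u q.2 q.1) * b₀ q.2) ^ n, Fintype.sum_prod_type_right]
    refine Finset.sum_congr rfl fun k _ => ?_
    rw [map_sum, Finset.sum_mul]
    refine Finset.sum_congr rfl fun i _ => ?_
    rw [mul_pow, map_pow]
  have hv0 : ∀ u : Fin S₀ → Fin T → R,
      (∀ k r, 2 ≤ r → r ≤ e → ∑ i, u k i ^ (2 * r) = ∑ i, v i ^ (2 * r)) →
      ∀ r, 2 ≤ r → r ≤ e → ∑ k, algebraMap R K (∑ i, u k i ^ (2 * r)) * b₀ k ^ (2 * r) = 0 := by
    intro u hu r h2 h3
    have h4 : ∀ k, algebraMap R K (∑ i, u k i ^ (2 * r)) * b₀ k ^ (2 * r) =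
        algebraMap R K (∑ i, v i ^ (2 * r)) * b₀ k ^ (2 * r) := by
      intro k
      rw [hu k r h2 h3]
    simp only [h4]
    rw [← Finset.mul_sum, hpow r h2 h3, mul_zero]
  by_cases h1 : ∑ k, algebraMap R K (∑ i, v i ^ 2) * b₀ k ^ 2 = 0
  · refine ⟨fun l => algebraMap R K (w (finProdFinEquiv.symm l).2
      (finProdFinEquiv.symm l).1) * b₀ (finProdFinEquiv.symm l).2, ?_, fun r h2 h3 => ?_⟩
    · rw [hsum w 2]
      have h2 : ∑ k, algebraMap R K (∑ i, w k i ^ 2) * b₀ k ^ 2 =
          ∑ k, (algebraMap R K (∑ i, v i ^ 2) * b₀ k ^ 2 +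
            if k = k₀ then algebraMap R K (∑ i, v' i ^ 2 - ∑ i, v i ^ 2) * b₀ k ^ 2 else 0) := by
        refine Finset.sum_congr rfl fun k _ => ?_
        by_cases hk : k = k₀
        · have h3 : w k = v' := by
            funext i
            exact if_pos hk
          rw [h3, if_pos hk, ← add_mul, ← map_add]
          congr 2
          ring
        · have h3 : w k = v := by
            funext i
            exact if_neg hk
          rw [h3, if_neg hk, add_zero]
      rw [h2, Finset.sum_add_distrib, h1, zero_add, Finset.sum_ite_eq' Finset.univ k₀,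
        if_pos (Finset.mem_univ _)]
      refine mul_ne_zero ?_ (pow_ne_zero 2 hk₀)
      rw [Ne, map_eq_zero_iff _ (algebraMap R K).injective, sub_eq_zero]
      exact fun h => hne h.symm
    · rw [hsum w (2 * r)]
      refine hv0 w (fun k r h2 h3 => ?_) r h2 h3
      by_cases hk : k = k₀
      · have h3' : w k = v' := by
          funext i
          exact if_pos hk
        rw [h3']
        exact (hv r h2 h3).symm
      · have h3' : w k = v := by
          funext i
          exact if_neg hk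
        rw [h3']
  · refine ⟨fun l => algebraMap R K (v (finProdFinEquiv.symm l).1) *
      b₀ (finProdFinEquiv.symm l).2, ?_, fun r h2 h3 => ?_⟩
    · rw [hsum (fun _ => v) 2]
      exact h1
    · rw [hsum (fun _ => v) (2 * r)]
      exact hv0 (fun _ => v) (fun _ _ _ _ => rfl) r h2 h3

end LWR
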