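import Pool.Agent.Lib.LW.Defs

/-!
A bound for the level. If `K` has the circle property of exponent `n` and `-1` is a sum of squares
in `K`, then `-1` is a sum of `8 * 2^n` squares in `K` (after Pfister).
-/

set_option linter.unusedSectionVars false

namespace LWR

open LW Matrix

section rep

variable {K : Type*} [Field K]

/-- The diagonal form `a` represents the diagonal form `b`. -/
def Rep {ι κ : Type*} [Fintype ι] [DecidableEq ι] [DecidableEq κ] (a : ι → K) (b : κ → K) :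
    Prop :=
  ∃ T : Matrix κ ι K, T * diagonal a * Tᵀ = diagonal b

variable {ι κ μ ν : Type*} [Fintype ι] [DecidableEq ι] [Fintype κ] [DecidableEq κ] [Fintype μ]
  [DecidableEq μ] [Fintype ν] [DecidableEq ν]

theorem Rep.refl (a : ι → K) : Rep a a := ⟨1, by simp⟩

theorem Rep.trans {a : ι → K} {b : κ → K} {c : μ → K} (h : Rep a b) (h' : Rep b c) : Rep a c := by
  obtain ⟨T, hT⟩ := h
  obtain ⟨T', hT'⟩ := h'
  refine ⟨T' * T, ?_⟩
  rw [← hT', ← hT, transpose_mul]
  simp only [Matrix.mul_assoc]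

theorem Rep.sum {a : ι → K} {b : κ → K} {c : μ → K} {d : ν → K} (h : Rep a b) (h' : Rep c d) :
    Rep (Sum.elim a c) (Sum.elim b d) := by
  obtain ⟨T, hT⟩ := h
  obtain ⟨T', hT'⟩ := h'
  refine ⟨fromBlocks T 0 0 T', ?_⟩
  rw [← fromBlocks_diagonal, ← fromBlocks_diagonal, fromBlocks_transpose, fromBlocks_multiply,
    fromBlocks_multiply, ← hT, ← hT']
  simp

theorem Rep.smul {a : ι → K} {b : κ → K} (r : K) (h : Rep a b) :
    Rep (fun i => r * a i) (fun j => r * b j) := by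
  obtain ⟨T, hT⟩ := h
  refine ⟨T, ?_⟩
  have h1 : diagonal (fun i => r * a i) = r • diagonal a := by
    rw [← diagonal_smul]
    rfl
  have h2 : diagonal (fun i => r * b i) = r • diagonal b := by
    rw [← diagonal_smul]
    rfl
  rw [h1, h2, ← hT]
  simp

theorem Rep.comp {a : ι → K} {b : κ → K} (h : Rep a b) (e : μ → κ) (he : Function.Injective e) :
    Rep a (b ∘ e) := by
  obtain ⟨T, hT⟩ := h
  refine ⟨T.submatrix e id, ?_⟩
  have h1 : diagonal (b ∘ e) = (diagonal b).submatrix e e := by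
    rw [submatrix_diagonal b e he]
  rw [h1, ← hT]
  ext i j
  simp [Matrix.mul_apply]

theorem rep_two {a : ι → K} (A B : K) :
    Rep (Sum.elim (fun i => A * a i) (fun i => B * a i))
      (Sum.elim (fun i => (A + B) * a i) (fun i => (A + B) * (A * B * a i))) := by
  refine ⟨fromBlocks 1 1 (-B • 1) (A • 1), ?_⟩
  rw [← fromBlocks_diagonal, ← fromBlocks_diagonal, fromBlocks_transpose, fromBlocks_multiply,
    fromBlocks_multiply]
  congr 1
  · simp only [Matrix.one_mul, transpose_one, Matrix.mul_one, Matrix.mul_zero, add_zero, zero_add]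
    ext i j
    by_cases h : i = j
    · subst h
      simp
      ring
    · simp [h]
  · ext i j
    by_cases h : i = j
    · subst h
      simp
      ring
    · simp [h]
  · ext i j
    by_cases h : i = j
    · subst h
      simp
      ring
    · simp [h]
  · ext i j
    by_cases h : i = j
    · subst h
      simp
      ring
    · simp [h]

theorem norm_vecMul {b : κ → K} (T : Matrix κ ι K) (h1 : T * Tᵀ = diagonal b) (u : κ → K) :
    ∑ i, (u ᵥ* T) i ^ 2 = ∑ j, b j * u j ^ 2 := by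
  have h2 : ∑ i, (u ᵥ* T) i ^ 2 = (u ᵥ* T) ⬝ᵥ (u ᵥ* T) := by
    simp [dotProduct, sq]
  have h3 : (u ᵥ* T) ⬝ᵥ (u ᵥ* T) = u ⬝ᵥ ((T * Tᵀ) *ᵥ u) := by
    rw [← Matrix.mulVec_mulVec, Matrix.mulVec_transpose, Matrix.dotProduct_mulVec]
  rw [h2, h3, h1]
  simp only [dotProduct, mulVec_diagonal]
  refine Finset.sum_congr rfl fun j _ => ?_
  ring

theorem eq_zero_of_vecMul {b : κ → K} (hb : ∀ j, b j ≠ 0) (T : Matrix κ ι K)
    (h1 : T * Tᵀ = diagonal b) (u : κ → K) (hu : u ᵥ* T = 0) : u = 0 := by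
  have h2 : u ᵥ* (T * Tᵀ) = 0 := by
    rw [← Matrix.vecMul_vecMul, hu, Matrix.zero_vecMul]
  rw [h1] at h2
  funext j
  have h3 := congrFun h2 j
  rw [vecMul_diagonal] at h3
  rcases mul_eq_zero.1 h3 with h | h
  · exact h
  · exact (hb j h).elim


theorem Rep.src {a : ι → K} {b : κ → K} (h : Rep a b) (e : μ ≃ ι) : Rep (a ∘ e) b := by
  obtain ⟨T, hT⟩ := h
  refine ⟨T.submatrix id e, ?_⟩
  have h1 : diagonal (a ∘ e) = (diagonal a).submatrix e e := by
    rw [submatrix_diagonal a e e.injective]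
  rw [h1, ← hT, Matrix.submatrix_mul_equiv]
  have h2 : (T.submatrix id e)ᵀ = Tᵀ.submatrix e id := rfl
  rw [h2, Matrix.submatrix_mul_equiv, Matrix.submatrix_id_id]

theorem Rep.one {b : κ → K} (h : Rep (fun _ : ι => (1 : K)) b) :
    ∃ T : Matrix κ ι K, T * Tᵀ = diagonal b := by
  obtain ⟨T, hT⟩ := h
  refine ⟨T, ?_⟩
  rw [← hT]
  have h1 : diagonal (fun _ : ι => (1 : K)) = 1 := diagonal_one
  rw [h1, Matrix.mul_one]

theorem rep_of_one {b : κ → K} {T : Matrix κ ι K} (h : T * Tᵀ = diagonal b) :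
    Rep (fun _ : ι => (1 : K)) b := by
  refine ⟨T, ?_⟩
  have h1 : diagonal (fun _ : ι => (1 : K)) = 1 := diagonal_one
  rw [h1, Matrix.mul_one, h]

end rep

section pf

variable {K : Type*} [Field K]

private theorem G_step {ι : Type*} [Fintype ι] [DecidableEq ι] (T₁ T₂ : Matrix ι ι K) (c₁ c₂ : K)
    (h0 : c₁ ≠ 0)
    (h1 : T₁ * T₁ᵀ = c₁ • (1 : Matrix ι ι K))
    (h1' : T₁ᵀ * T₁ = c₁ • (1 : Matrix ι ι K))
    (h2 : T₂ * T₂ᵀ = c₂ • (1 : Matrix ι ι K))
    (h2' : T₂ᵀ * T₂ = c₂ • (1 : Matrix ι ι K)) :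
    ∃ T : Matrix (ι ⊕ ι) (ι ⊕ ι) K,
      T * Tᵀ = (c₁ + c₂) • (1 : Matrix (ι ⊕ ι) (ι ⊕ ι) K) ∧
      Tᵀ * T = (c₁ + c₂) • (1 : Matrix (ι ⊕ ι) (ι ⊕ ι) K) := by
  have hone : (c₁ + c₂) • (1 : Matrix (ι ⊕ ι) (ι ⊕ ι) K) =
      fromBlocks ((c₁ + c₂) • 1) 0 0 ((c₁ + c₂) • 1) := by
    rw [← fromBlocks_one, fromBlocks_smul, smul_zero]
  refine ⟨fromBlocks T₁ T₂ (-c₁⁻¹ • (T₁ * T₂ᵀ * T₁)) T₁, ?_, ?_⟩
  · rw [fromBlocks_transpose, fromBlocks_multiply, hone]
    have e1 : (-c₁⁻¹ • (T₁ * T₂ᵀ * T₁))ᵀ = -c₁⁻¹ • (T₁ᵀ * (T₂ * T₁ᵀ)) := by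
      rw [transpose_smul, transpose_mul, transpose_mul, transpose_transpose]
    have e2 : T₁ * (-c₁⁻¹ • (T₁ᵀ * (T₂ * T₁ᵀ))) = -(T₂ * T₁ᵀ) := by
      rw [Matrix.mul_smul, ← Matrix.mul_assoc, h1, Matrix.smul_mul, Matrix.one_mul, smul_smul,
        neg_mul, inv_mul_cancel₀ h0, neg_one_smul]
    have e3 : (-c₁⁻¹ • (T₁ * T₂ᵀ * T₁)) * T₁ᵀ = -(T₁ * T₂ᵀ) := by
      rw [Matrix.smul_mul, Matrix.mul_assoc, h1, Matrix.mul_smul, Matrix.mul_one, smul_smul,
        neg_mul, inv_mul_cancel₀ h0, neg_one_smul]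
    have e4 : (-c₁⁻¹ • (T₁ * T₂ᵀ * T₁)) * (-c₁⁻¹ • (T₁ᵀ * (T₂ * T₁ᵀ))) =
        c₂ • (1 : Matrix ι ι K) := by
      rw [Matrix.mul_smul, ← Matrix.mul_assoc, e3, neg_mul, Matrix.mul_assoc, ← Matrix.mul_assoc T₂ᵀ,
        h2', Matrix.smul_mul, Matrix.one_mul, Matrix.mul_smul, h1]
      rw [smul_neg, smul_smul, smul_smul, ← neg_smul]
      congr 1
      field_simp
    congr 1
    · rw [h1, h2, add_smul]
    · rw [e1, e2]
      simp
    · rw [e3]
      simp
    · rw [e1, e4, h1, add_comm, add_smul]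
  · rw [fromBlocks_transpose, fromBlocks_multiply, hone]
    have e1 : (-c₁⁻¹ • (T₁ * T₂ᵀ * T₁))ᵀ = -c₁⁻¹ • (T₁ᵀ * (T₂ * T₁ᵀ)) := by
      rw [transpose_smul, transpose_mul, transpose_mul, transpose_transpose]
    have e2 : (-c₁⁻¹ • (T₁ᵀ * (T₂ * T₁ᵀ))) * T₁ = -(T₁ᵀ * T₂) := by
      rw [Matrix.smul_mul, Matrix.mul_assoc, Matrix.mul_assoc, h1', Matrix.mul_smul,
        Matrix.mul_one, Matrix.mul_smul, smul_smul, neg_mul, inv_mul_cancel₀ h0, neg_one_smul]
    have e3 : T₁ᵀ * (-c₁⁻¹ • (T₁ * T₂ᵀ * T₁)) = -(T₂ᵀ * T₁) := by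
      rw [Matrix.mul_smul, Matrix.mul_assoc, ← Matrix.mul_assoc T₁ᵀ, h1', Matrix.smul_mul,
        Matrix.one_mul, smul_smul, neg_mul, inv_mul_cancel₀ h0, neg_one_smul]
    have e4 : (-c₁⁻¹ • (T₁ᵀ * (T₂ * T₁ᵀ))) * (-c₁⁻¹ • (T₁ * T₂ᵀ * T₁)) =
        c₂ • (1 : Matrix ι ι K) := by
      have e5 : T₁ᵀ * (T₂ * T₁ᵀ) * (T₁ * T₂ᵀ * T₁) = (c₁ * c₂ * c₁) •
          (1 : Matrix ι ι K) := by
        calc T₁ᵀ * (T₂ * T₁ᵀ) * (T₁ * T₂ᵀ * T₁) = T₁ᵀ * (T₂ * ((T₁ᵀ * T₁) * T₂ᵀ)) * T₁ := by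
              simp only [Matrix.mul_assoc]
          _ = _ := by
            rw [h1', Matrix.smul_mul, Matrix.one_mul, Matrix.mul_smul, h2, smul_smul,
              Matrix.mul_smul, Matrix.mul_one, Matrix.smul_mul, h1', smul_smul]
      rw [Matrix.smul_mul, Matrix.mul_smul, e5, smul_smul, smul_smul]
      congr 1
      field_simp
    congr 1
    · rw [e1, h1', e4, add_smul]
    · rw [e1, e2]
      simp
    · rw [e3]
      simp
    · rw [h1', h2', add_comm, add_smul]

private theorem exists_halves {ι : Type*} [Fintype ι] {k : ℕ} (h : Fintype.card ι = 2 ^ (k + 1)) :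
    Nonempty (ι ≃ Fin (2 ^ k) ⊕ Fin (2 ^ k)) := by
  refine ⟨Fintype.equivOfCardEq ?_⟩
  rw [h, Fintype.card_sum, Fintype.card_fin, pow_succ]
  ring

/-- Pfister: the form `2^k` squares is multiplicative. -/
theorem exists_mult (k : ℕ) : ∀ {ι : Type} [Fintype ι] [DecidableEq ι],
    Fintype.card ι = 2 ^ k → ∀ x : ι → K, ∃ T : Matrix ι ι K,
    T * Tᵀ = (∑ i, x i ^ 2) • (1 : Matrix ι ι K) ∧
      Tᵀ * T = (∑ i, x i ^ 2) • (1 : Matrix ι ι K) := by
  induction k with
  | zero =>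
    intro ι _ _ hι x
    obtain ⟨i₀, hi₀⟩ := Fintype.card_eq_one_iff.1 hι
    have h1 : ∀ i, x i * x i = ∑ j, x j ^ 2 := by
      intro i
      rw [Fintype.sum_eq_single i (fun j hj => (hj ((hi₀ j).trans (hi₀ i).symm)).elim), sq]
    refine ⟨diagonal x, ?_, ?_⟩
    all_goals
      rw [diagonal_transpose, diagonal_mul_diagonal, smul_one_eq_diagonal]
      congr 1
      funext i
      exact h1 i
  | succ k ih =>
    intro ι _ _ hι x
    obtain ⟨e⟩ := exists_halves hι
    have key : ∃ T : Matrix (Fin (2 ^ k) ⊕ Fin (2 ^ k)) (Fin (2 ^ k) ⊕ Fin (2 ^ k)) K,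
        T * Tᵀ = (∑ i, x i ^ 2) • 1 ∧ Tᵀ * T = (∑ i, x i ^ 2) • 1 := by
      obtain ⟨T₁, h1, h1'⟩ := ih (Fintype.card_fin _) fun i : Fin (2 ^ k) => x (e.symm (Sum.inl i))
      obtain ⟨T₂, h2, h2'⟩ := ih (Fintype.card_fin _) fun i : Fin (2 ^ k) => x (e.symm (Sum.inr i))
      rw [← e.symm.sum_comp, Fintype.sum_sum_type]
      by_cases hc1 : ∑ i : Fin (2 ^ k), x (e.symm (Sum.inl i)) ^ 2 = 0
      · by_cases hc2 : ∑ i : Fin (2 ^ k), x (e.symm (Sum.inr i)) ^ 2 = 0
        · exact ⟨0, by simp [hc1, hc2], by simp [hc1, hc2]⟩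
        · obtain ⟨T, hT, hT'⟩ := G_step T₂ T₁ _ _ hc2 h2 h2' h1 h1'
          refine ⟨T, ?_, ?_⟩
          · rw [hT, add_comm]
          · rw [hT', add_comm]
      · exact G_step T₁ T₂ _ _ hc1 h1 h1' h2 h2'
    obtain ⟨T, hT, hT'⟩ := key
    refine ⟨T.submatrix e e, ?_, ?_⟩
    · have h2 : (T.submatrix e e)ᵀ = Tᵀ.submatrix e e := rfl
      rw [h2, Matrix.submatrix_mul_equiv, hT]
      ext i j
      simp [Matrix.one_apply]
    · have h2 : (T.submatrix e e)ᵀ = Tᵀ.submatrix e e := rfl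
      rw [h2, Matrix.submatrix_mul_equiv, hT']
      ext i j
      simp [Matrix.one_apply]

theorem rep_mult {ι : Type} [Fintype ι] [DecidableEq ι] {k : ℕ} (h : Fintype.card ι = 2 ^ k)
    (x : ι → K) : Rep (fun _ : ι => (1 : K)) (fun _ : ι => ∑ i, x i ^ 2) := by
  obtain ⟨T, hT, _⟩ := exists_mult k h x
  refine rep_of_one (T := T) ?_
  rw [hT, smul_one_eq_diagonal]

/-- Anisotropy of the form `2^k` squares. -/
def An (K : Type*) [Field K] (k : ℕ) : Prop := ∀ x : Fin (2 ^ k) → K, ∑ i, x i ^ 2 = 0 → x = 0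

theorem An.of_card {k : ℕ} (h : An K k) {ι : Type*} [Fintype ι] (hι : Fintype.card ι = 2 ^ k)
    (x : ι → K) (hx : ∑ i, x i ^ 2 = 0) : x = 0 := by
  obtain ⟨e⟩ : Nonempty (Fin (2 ^ k) ≃ ι) := ⟨Fintype.equivOfCardEq (by simp [hι])⟩
  have h1 := h (x ∘ e) (by
    rw [← hx, ← e.sum_comp]
    rfl)
  funext i
  have h2 := congrFun h1 (e.symm i)
  simpa using h2

theorem an_half {k : ℕ} (h : An K k) (h' : ¬ An K (k + 1)) :
    ∃ y : Fin (2 ^ k) → K, ∑ i, y i ^ 2 = -1 := by
  unfold An at h'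
  push Not at h'
  obtain ⟨x, hx, hx0⟩ := h'
  obtain ⟨e⟩ := exists_halves (ι := Fin (2 ^ (k + 1))) (k := k) (by simp)
  rw [← e.symm.sum_comp, Fintype.sum_sum_type] at hx
  have hc : ∑ i : Fin (2 ^ k), x (e.symm (Sum.inl i)) ^ 2 ≠ 0 := by
    intro hc
    rw [hc, zero_add] at hx
    have h1 := h _ hc
    have h2 := h _ hx
    apply hx0
    funext i
    obtain ⟨j, rfl⟩ := e.symm.surjective i
    rcases j with j | j
    · exact congrFun h1 j
    · exact congrFun h2 j
  obtain ⟨T, hT, _⟩ := exists_mult k (by simp) fun i : Fin (2 ^ k) => x (e.symm (Sum.inl i))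
  generalize ∑ i : Fin (2 ^ k), x (e.symm (Sum.inl i)) ^ 2 = c at *
  have h3 := norm_vecMul (b := fun _ => c) T (by rw [hT, smul_one_eq_diagonal])
    fun i : Fin (2 ^ k) => x (e.symm (Sum.inr i))
  rw [← Finset.mul_sum,
    show ∑ i : Fin (2 ^ k), x (e.symm (Sum.inr i)) ^ 2 = -c by linear_combination hx] at h3
  refine ⟨fun i => c⁻¹ * ((fun i : Fin (2 ^ k) => x (e.symm (Sum.inr i))) ᵥ* T) i, ?_⟩
  simp_rw [mul_pow]
  rw [← Finset.mul_sum, h3]
  field_simp

/-- The pure subform theorem for sums of squares. -/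
theorem pure_sub (k : ℕ) : ∀ {ι : Type} [Fintype ι] [DecidableEq ι],
    Fintype.card ι = 2 ^ (k + 1) → ∀ (o : ι) (y : ι → K), y o = 0 → ∑ i, y i ^ 2 ≠ 0 →
    ∃ τ : Fin (2 ^ k) → K, (∀ i, τ i ≠ 0) ∧ Rep (fun _ : ι => (1 : K))
      (Sum.elim τ fun i => (∑ i, y i ^ 2) * τ i) := by
  induction k with
  | zero =>
    intro ι _ _ hι o y hy hc
    obtain ⟨e⟩ := exists_halves hι
    refine ⟨fun _ => 1, fun _ => one_ne_zero, ?_⟩
    obtain ⟨o', ho'⟩ : ∃ o' : ι, o' ≠ o ∧ ∀ i, i = o ∨ i = o' := by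
      have h1 : Fintype.card ι = 2 := by simpa using hι
      obtain ⟨a, b, hab, huniv⟩ := Finset.card_eq_two.1 (by rw [Finset.card_univ, h1] :
        (Finset.univ : Finset ι).card = 2)
      have h2 : ∀ i, i = a ∨ i = b := fun i => by
        have := Finset.mem_univ i
        rw [huniv] at this
        simpa using this
      rcases h2 o with h | h
      · exact ⟨b, by rw [h]; exact hab.symm, fun i => by rw [h]; exact h2 i⟩
      · exact ⟨a, by rw [h]; exact hab, fun i => by rw [h]; exact (h2 i).symm⟩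
    have h1 : ∑ i, y i ^ 2 = y o' ^ 2 := by
      refine Fintype.sum_eq_single o' fun i hi => ?_
      rcases ho'.2 i with h | h
      · rw [h, hy]
        simp
      · exact (hi h).elim
    rw [h1]
    let T : Matrix (Fin (2 ^ 0) ⊕ Fin (2 ^ 0)) ι K := Matrix.of fun j i =>
      Sum.elim (fun _ => if i = o then 1 else 0) (fun _ => if i = o' then y o' else 0) j
    refine rep_of_one (T := T) ?_
    ext a b
    rw [Matrix.mul_apply]
    have hs : ∀ f : ι → K, ∑ i, f i = f o + f o' := by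
      intro f
      rw [← Finset.sum_pair ho'.1.symm]
      refine (Finset.sum_subset (Finset.subset_univ _) fun i _ hi => ?_).symm
      rcases ho'.2 i with h | h <;> simp [h] at hi
    rw [hs]
    have hsub : ∀ a b : Fin (2 ^ 0), a = b := by
      intro a b
      have := a.2
      have := b.2
      exact Fin.ext (by omega)
    rcases a with a | a <;> rcases b with b | b
    · rw [hsub a b]
      simp [T, ho'.1]
    · simp [T, ho'.1, ho'.1.symm]
    · simp [T, ho'.1, ho'.1.symm]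
    · rw [hsub a b]
      simp [T, ho'.1.symm]
      ring
  | succ k ih =>
    intro ι _ _ hι o y hy hc
    obtain ⟨e, o', ho'⟩ : ∃ (e : ι ≃ Fin (2 ^ (k + 1)) ⊕ Fin (2 ^ (k + 1))) (o' : Fin (2 ^ (k + 1))),
        e.symm (Sum.inl o') = o := by
      obtain ⟨e⟩ := exists_halves hι
      rcases h : e o with o' | o'
      · exact ⟨e, o', by rw [← h, Equiv.symm_apply_apply]⟩
      · refine ⟨e.trans (Equiv.sumComm _ _), o', ?_⟩
        rw [Equiv.symm_trans_apply]
        simp [← h]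
    have hsrc : (fun _ : ι => (1 : K)) = (Sum.elim (fun _ : Fin (2 ^ (k + 1)) => (1 : K))
        (fun _ : Fin (2 ^ (k + 1)) => (1 : K))) ∘ e := by
      funext i
      rw [Function.comp_apply]
      rcases e i with j | j <;> rfl
    rw [hsrc]
    have hrefl : Rep (fun _ : Fin (2 ^ (k + 1)) => (1 : K)) (fun _ => (1 : K)) := Rep.refl _
    -- halves of the target
    obtain ⟨g⟩ := exists_halves (ι := Fin (2 ^ (k + 1))) (k := k) (by simp)
    rw [← e.symm.sum_comp, Fintype.sum_sum_type] at hc ⊢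
    by_cases hA : ∑ i : Fin (2 ^ (k + 1)), y (e.symm (Sum.inl i)) ^ 2 = 0
    · rw [hA, zero_add] at hc ⊢
      refine ⟨fun _ => 1, fun _ => one_ne_zero, ?_⟩
      have h1 := hrefl.sum (rep_mult (K := K) (ι := Fin (2 ^ (k + 1))) (k := k + 1) (by simp)
        fun i => y (e.symm (Sum.inr i)))
      simp only [mul_one]
      exact h1.src e
    · obtain ⟨τ, hτ, h1⟩ := ih (ι := Fin (2 ^ (k + 1))) (by simp) o'
        (fun i => y (e.symm (Sum.inl i))) (by rw [ho', hy]) hA
      generalize hAe : ∑ i : Fin (2 ^ (k + 1)), y (e.symm (Sum.inl i)) ^ 2 = A at *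
      by_cases hB : ∑ i : Fin (2 ^ (k + 1)), y (e.symm (Sum.inr i)) ^ 2 = 0
      · rw [hB, add_zero] at hc ⊢
        refine ⟨(Sum.elim τ τ) ∘ g, ?_, ?_⟩
        · intro i
          rw [Function.comp_apply]
          rcases g i with i | i <;> exact hτ i
        · have h2 := ((h1.sum h1).src e).comp ((Equiv.sumCongr g g).trans
            (Equiv.sumSumSumComm (Fin (2 ^ k)) (Fin (2 ^ k)) (Fin (2 ^ k)) (Fin (2 ^ k))))
            (Equiv.injective _)
          have h3 : (Sum.elim (Sum.elim τ fun i => A * τ i) (Sum.elim τ fun i => A * τ i)) ∘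
              ((Equiv.sumCongr g g).trans
                (Equiv.sumSumSumComm (Fin (2 ^ k)) (Fin (2 ^ k)) (Fin (2 ^ k)) (Fin (2 ^ k)))) =
              Sum.elim (Sum.elim τ τ ∘ g) fun i => A * (Sum.elim τ τ ∘ g) i := by
            funext i
            rcases i with i | i
            · simp only [Function.comp_apply, Equiv.trans_apply, Equiv.sumCongr_apply, Sum.map_inl,
                Sum.elim_inl]
              rcases g i with j | j <;> rfl
            · simp only [Function.comp_apply, Equiv.trans_apply, Equiv.sumCongr_apply, Sum.map_inr,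
                Sum.elim_inr]
              rcases g i with j | j <;> rfl
          rw [h3] at h2
          exact h2
      · have h3 := rep_mult (K := K) (ι := Fin (2 ^ (k + 1))) (k := k + 1) (by simp)
          fun i => y (e.symm (Sum.inr i))
        generalize ∑ i : Fin (2 ^ (k + 1)), y (e.symm (Sum.inr i)) ^ 2 = B at *
        have h4 := h1.smul B
        simp only [mul_one] at h4
        -- reordering
        let σ : (Fin (2 ^ k) ⊕ Fin (2 ^ k)) ⊕ (Fin (2 ^ k) ⊕ Fin (2 ^ k)) →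
            (Fin (2 ^ k) ⊕ Fin (2 ^ k)) ⊕ (Fin (2 ^ k) ⊕ Fin (2 ^ k)) :=
          Sum.elim (Sum.elim (fun j => Sum.inl (Sum.inl j)) (fun j => Sum.inr (Sum.inr j)))
            (Sum.elim (fun j => Sum.inl (Sum.inr j)) (fun j => Sum.inr (Sum.inl j)))
        have hσ : Function.Injective σ := by
          rintro ((a | a) | (a | a)) ((b | b) | (b | b)) hab <;> simp_all [σ]
        have h5 := ((h1.sum (h3.trans h4)).src e).comp σ hσ
        have h6 : (Sum.elim (Sum.elim τ fun i => A * τ i)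
            (fun j => B * Sum.elim τ (fun i => A * τ i) j)) ∘ σ =
            Sum.elim (Sum.elim τ fun i => A * B * τ i)
              (Sum.elim (fun i => A * τ i) fun i => B * τ i) := by
          funext j
          rcases j with (j | j) | (j | j)
          · rfl
          · simp only [σ, Function.comp_apply, Sum.elim_inl, Sum.elim_inr]
            ring
          · rfl
          · rfl
        rw [h6] at h5
        have h7 := (h5.trans ((Rep.refl _).sum (rep_two (a := τ) A B))).comp (Sum.map g g)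
          (Sum.map_injective.2 ⟨g.injective, g.injective⟩)
        refine ⟨(Sum.elim τ fun i => A * B * τ i) ∘ g, ?_, ?_⟩
        · intro i
          rw [Function.comp_apply]
          rcases g i with i | i
          · exact hτ i
          · exact mul_ne_zero (mul_ne_zero hA hB) (hτ i)
        · convert h7 using 1
          funext j
          rcases j with j | j
          · rfl
          · simp only [Function.comp_apply, Sum.map_inr, Sum.elim_inr]
            rcases g j with j | j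
            · rfl
            · rfl

/-- The bound for the level. -/
theorem level_bound {K : Type*} [Field K] [CharZero K] {n : ℕ} (hC : Circ K n)
    (h : ∃ s, Lev K s) : Lev K (8 * 2 ^ n) := by
  classical
  -- padding
  have hpad : ∀ {s t : ℕ}, s ≤ t → Lev K s → Lev K t := by
    intro s t hst ⟨α, hα⟩
    refine ⟨fun i => if hi : (i : ℕ) < s then α ⟨i, hi⟩ else 0, ?_⟩
    rw [← hα]
    refine (Finset.sum_of_injOn (Fin.castLE hst) (Fin.castLE_injective hst).injOn
      (fun _ _ => Finset.mem_coe.2 (Finset.mem_univ _)) ?_ ?_).symm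
    · intro i _ hi
      have h1 : ¬ (i : ℕ) < s := by
        intro h2
        exact hi ⟨⟨i, h2⟩, Finset.mem_coe.2 (Finset.mem_univ _), by ext; rfl⟩
      simp [h1]
    · intro i _
      simp
  have hex : ∃ k, ¬ An K k := by
    obtain ⟨s, hs⟩ := h
    have hs1 : s ≤ 2 ^ s := Nat.lt_two_pow_self.le
    obtain ⟨α, hα⟩ := hpad hs1 hs
    refine ⟨s + 1, fun hA => ?_⟩
    obtain ⟨z⟩ : Nonempty (Fin (2 ^ s)) := ⟨⟨0, by positivity⟩⟩
    have h1 := hA.of_card (ι := Fin (2 ^ s) ⊕ Fin (2 ^ s)) (by simp [pow_succ]; ring)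
      (Sum.elim α fun i => if i = z then 1 else 0) (by
        rw [Fintype.sum_sum_type]
        simp only [Sum.elim_inl, Sum.elim_inr, hα]
        rw [Fintype.sum_eq_single z (fun i hi => by rw [if_neg hi]; ring), if_pos rfl]
        ring)
    have h2 := congrFun h1 (Sum.inr z)
    simp at h2
  obtain ⟨k, hk, hmin⟩ : ∃ k, ¬ An K k ∧ ∀ m < k, An K m :=
    ⟨Nat.find hex, Nat.find_spec hex, fun m hm => not_not.1 (Nat.find_min hex hm)⟩
  have h0 : An K 0 := by
    intro x hx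
    have h1 : ∑ i : Fin (2 ^ 0), x i ^ 2 = x 0 ^ 2 := by
      refine Fintype.sum_eq_single 0 fun i hi => ?_
      have := i.2
      exact (hi (Fin.ext (by simp))).elim
    rw [h1] at hx
    funext i
    have h2 : i = 0 := by
      exact Fin.ext (by simp)
    rw [h2]
    exact (pow_eq_zero_iff two_ne_zero).1 hx
  obtain ⟨m, rfl⟩ : ∃ m, k = m + 1 := by
    cases k with
    | zero => exact (hk h0).elim
    | succ m => exact ⟨m, rfl⟩
  have hAm := hmin m (Nat.lt_succ_self m)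
  obtain ⟨y, hy⟩ := an_half hAm hk
  -- it suffices to bound `m`
  by_cases hm : m ≤ n + 3
  · refine hpad (s := 2 ^ m) ?_ ⟨y, hy⟩
    calc 2 ^ m ≤ 2 ^ (n + 3) := Nat.pow_le_pow_right (by norm_num) hm
      _ = 8 * 2 ^ n := by rw [pow_add]; ring
  exfalso
  obtain ⟨k', rfl⟩ : ∃ k', m = k' + 1 := ⟨m - 1, by omega⟩
  have hbig : 1 * (2 + 1) * 2 ^ n < 2 ^ k' := by
    have h1 : 2 ^ (n + 3) ≤ 2 ^ k' := Nat.pow_le_pow_right (by norm_num) (by omega)
    have h2 : 2 ^ (n + 3) = 8 * 2 ^ n := by rw [pow_add]; ring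
    have h3 : 0 < 2 ^ n := by positivity
    omega
  let o : Fin (2 ^ (k' + 1)) := ⟨0, by positivity⟩
  let t : K := y o
  let y' : Fin (2 ^ (k' + 1)) → K := fun i => if i = o then 0 else y i
  have hy' : ∑ i, y' i ^ 2 = -(1 + t ^ 2) := by
    have h1 : ∑ i, y i ^ 2 = ∑ i, y' i ^ 2 + t ^ 2 := by
      have h2 : ∀ i, y i ^ 2 = y' i ^ 2 + if i = o then t ^ 2 else 0 := by
        intro i
        by_cases hi : i = o
        · subst hi
          simp [y', t]
        · simp [y', hi]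
      simp_rw [h2]
      rw [Finset.sum_add_distrib, Finset.sum_ite_eq']
      simp
    rw [hy] at h1
    linear_combination -h1
  obtain ⟨o₁, ho₁⟩ : ∃ o₁ : Fin (2 ^ (k' + 1)), o₁ ≠ o :=
    ⟨⟨1, Nat.one_lt_two_pow (by omega)⟩, by simp [o]⟩
  have hc : ∑ i, y' i ^ 2 ≠ 0 := by
    intro hc
    rw [hc] at hy'
    have h1 : ∑ i, (fun i : Fin (2 ^ (k' + 1)) => if i = o then t else
        if i = o₁ then (1 : K) else 0) i ^ 2 = 0 := by
      have h2 : ∀ i : Fin (2 ^ (k' + 1)), (if i = o then t else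
          if i = o₁ then (1 : K) else 0) ^ 2 =
          (if i = o then t ^ 2 else 0) + if i = o₁ then (1 : K) else 0 := by
        intro i
        by_cases hi : i = o
        · rw [if_pos hi, if_pos hi, if_neg (by rw [hi]; exact ho₁.symm), add_zero]
        · rw [if_neg hi, if_neg hi, zero_add, ite_pow]
          simp
      simp_rw [h2]
      rw [Finset.sum_add_distrib, Finset.sum_ite_eq', Finset.sum_ite_eq']
      simp only [Finset.mem_univ, if_true]
      linear_combination hy'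
    have h3 := congrFun (hAm _ h1) o₁
    simp [ho₁] at h3
  obtain ⟨τ, hτ, hrep⟩ := pure_sub (K := K) k' (ι := Fin (2 ^ (k' + 1))) (by simp) o y'
    (by simp [y']) hc
  obtain ⟨T, hT⟩ := hrep.one
  set c : K := ∑ i, y' i ^ 2 with hcdef
  obtain ⟨w, hw0, hw⟩ := hC 2 1 (2 ^ k') (fun l _ => τ l) hbig
  have h20 := hw 0 2 0 rfl (by norm_num)
  have hre := congrArg QuadraticAlgebra.re h20
  have him := congrArg QuadraticAlgebra.im h20
  have hre' : ∑ l, τ l * ((w l).re ^ 2 - (w l).im ^ 2) = 0 := by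
    rw [← QuadraticAlgebra.reₗ_apply, map_sum, QuadraticAlgebra.re_zero] at hre
    refine Eq.trans ?_ hre
    refine Finset.sum_congr rfl fun l _ => ?_
    rw [QuadraticAlgebra.reₗ_apply, QuadraticAlgebra.re_smul, pow_zero, mul_one, sq (w l),
      QuadraticAlgebra.re_mul, smul_eq_mul]
    ring
  have him' : ∑ l, τ l * ((w l).re * (w l).im) = 0 := by
    rw [← QuadraticAlgebra.imₗ_apply, map_sum, QuadraticAlgebra.im_zero] at him
    have h1 : ∑ l, τ l * (2 * ((w l).re * (w l).im)) = 0 := by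
      refine Eq.trans ?_ him
      refine Finset.sum_congr rfl fun l _ => ?_
      rw [QuadraticAlgebra.imₗ_apply, QuadraticAlgebra.im_smul, pow_zero, mul_one, sq (w l),
        QuadraticAlgebra.im_mul, smul_eq_mul]
      ring
    have h2 : ∑ l, τ l * (2 * ((w l).re * (w l).im)) =
        2 * ∑ l, τ l * ((w l).re * (w l).im) := by
      rw [Finset.mul_sum]
      refine Finset.sum_congr rfl fun l _ => ?_
      ring
    rw [h2] at h1
    rcases mul_eq_zero.1 h1 with h3 | h3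
    · exact (two_ne_zero h3).elim
    · exact h3
  have hP : ∑ l, τ l * (w l).im ^ 2 = ∑ l, τ l * (w l).re ^ 2 := by
    have h1 : ∑ l, τ l * ((w l).re ^ 2 - (w l).im ^ 2) =
        ∑ l, τ l * (w l).re ^ 2 - ∑ l, τ l * (w l).im ^ 2 := by
      rw [← Finset.sum_sub_distrib]
      refine Finset.sum_congr rfl fun l _ => ?_
      ring
    rw [hre'] at h1
    linear_combination h1
  have hb : ∀ j, (Sum.elim τ fun i => c * τ i : Fin (2 ^ k') ⊕ Fin (2 ^ k') → K) j ≠ 0 := by
    rintro (j | j)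
    · exact hτ j
    · exact mul_ne_zero hc (hτ j)
  -- first vector
  have hvec : ∀ p q : Fin (2 ^ k') → K, ∑ l, τ l * p l ^ 2 + c * ∑ l, τ l * q l ^ 2 = 0 →
      p = 0 ∧ q = 0 := by
    intro p q hpq
    have h1 := norm_vecMul T hT (Sum.elim p q)
    rw [Fintype.sum_sum_type] at h1
    simp only [Sum.elim_inl, Sum.elim_inr] at h1
    have h2 : ∑ i, (Sum.elim p q ᵥ* T) i ^ 2 = 0 := by
      rw [h1, ← hpq, Finset.mul_sum]
      congr 1
      refine Finset.sum_congr rfl fun l _ => ?_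
      ring
    have h3 := eq_zero_of_vecMul hb T hT _ (hAm _ h2)
    constructor
    · funext l
      exact congrFun h3 (Sum.inl l)
    · funext l
      exact congrFun h3 (Sum.inr l)
  have h1 := hvec (fun l => (w l).re + t * (w l).im) (fun l => (w l).re) (by
    have h2 : ∑ l, τ l * ((w l).re + t * (w l).im) ^ 2 = ∑ l, τ l * (w l).re ^ 2 +
        2 * t * (∑ l, τ l * ((w l).re * (w l).im)) + t ^ 2 * ∑ l, τ l * (w l).im ^ 2 := by
      rw [Finset.mul_sum, Finset.mul_sum, ← Finset.sum_add_distrib, ← Finset.sum_add_distrib]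
      refine Finset.sum_congr rfl fun l _ => ?_
      ring
    rw [h2, him', hP, hy']
    ring)
  have hz : ∀ l, (w l).re = 0 := fun l => congrFun h1.2 l
  have h2 := hvec (fun l => (w l).im) 0 (by
    rw [hP]
    simp [hz])
  apply hw0
  funext l
  exact QuadraticAlgebra.ext (hz l) (congrFun h2.1 l)

end pf

end LWR
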