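import Pool.Agent.Lib.LWR.Blk
import Pool.Agent.Lib.LWR.Lvl
import Pool.Agent.Lib.LW.Br

/-!
The main induction and the final statement for all real closed fields.
-/

namespace LWR

open LW

/-- The main induction. -/
theorem main (n s₀ d : ℕ) : ∀ r, ∃ N : ℕ, ∀ (R K : Type) [Field R] [IsRealClosed R] [Field K]
    [Algebra R K], Circ K n → Lev K s₀ → Iso K d r N := by
  induction d using Nat.strong_induction_on with
  | _ d ih =>
    intro r
    rcases Nat.eq_zero_or_pos d with rfl | hd
    · refine ⟨1, fun R K _ _ _ _ _ _ m hm deg c hdeg => ⟨fun _ => 1, ?_, fun ρ => ?_⟩⟩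
      · intro h
        exact one_ne_zero (congrFun h ⟨0, hm⟩)
      · have := hdeg ρ
        omega
    · -- diagonal systems of degree `d`
      have hdiag : ∃ s, ∀ (R K : Type) [Field R] [IsRealClosed R] [Field K] [Algebra R K],
          Circ K n → Lev K s₀ → DiagIso K d r s := by
        rcases Nat.even_or_odd d with he | ho
        · obtain ⟨e, rfl⟩ := he
          have he1 : 1 ≤ e := by omega
          obtain ⟨N, hN⟩ := ih (2 * e - 1) (by omega) e
          obtain ⟨R', hR⟩ := ih e (by omega) r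
          obtain ⟨s, hs⟩ := even_diag n s₀ e r N R' he1
          refine ⟨s, fun R K _ _ _ _ hC hL => ?_⟩
          have := hs R K hC hL (hN R K hC hL) (hR R K hC hL)
          rwa [two_mul] at this
        · refine ⟨r * (d + 1) * d ^ n + 1, fun R K _ _ _ _ hC hL => ?_⟩
          have : CharZero K := charZero_of_injective_algebraMap (algebraMap R K).injective
          exact odd_diag n d r _ hC ho (Nat.lt_succ_self _)
      obtain ⟨s, hs⟩ := hdiag
      choose Nd hNd using ih (d - 1) (by omega)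
      obtain ⟨N, hN⟩ := brauer d r s hd Nd
      exact ⟨N, fun R K _ _ _ _ hC hL => hN K (fun r' => hNd r' R K hC hL) (hs R K hC hL)⟩

private theorem V1_mono {m d : ℕ} (σ : Fin m →₀ ℕ) (hσ : σ.degree = d) :
    ∃ τ : Fin d → Fin m, ∀ (K : Type*) [Field K] (x : Fin m → K),
      ∏ i, x (τ i) = ∏ j ∈ σ.support, x j ^ σ j := by
  have hlen : σ.toMultiset.toList.length = d := by
    rw [Multiset.length_toList, Finsupp.card_toMultiset, ← hσ]
    rfl
  subst hlen
  refine ⟨fun i => σ.toMultiset.toList.get i, fun K _ x => ?_⟩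
  have h1 : ∏ i : Fin σ.toMultiset.toList.length, x (σ.toMultiset.toList.get i) =
      (σ.toMultiset.toList.map x).prod := by
    simp
  rw [h1, ← Multiset.prod_coe, ← Multiset.map_coe, Multiset.coe_toList, Finsupp.toMultiset_map,
    Finsupp.prod_toMultiset]
  rw [Finsupp.prod_mapDomain_index (fun b => pow_zero b) (fun b m n => pow_add b m n)]
  rfl

/-- A homogeneous polynomial of degree `d` is given by a coefficient tensor. -/
theorem exists_tensor {K : Type*} [Field K] {m d : ℕ} (f : MvPolynomial (Fin m) K)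
    (hf : f.IsHomogeneous d) : ∃ c : (Fin d → Fin m) → K, ∀ x, MvPolynomial.eval x f = ev c x := by
  classical
  have h1 : ∀ σ : f.support, ∃ τ : Fin d → Fin m, ∀ x : Fin m → K,
      ∏ i, x (τ i) = ∏ j ∈ σ.1.support, x j ^ σ.1 j := by
    intro σ
    have h2 : σ.1.degree = d := by
      rw [Finsupp.degree_eq_weight_one]
      exact hf (MvPolynomial.mem_support_iff.1 σ.2)
    obtain ⟨τ, h⟩ := V1_mono σ.1 h2
    exact ⟨τ, h K⟩
  choose T hT using h1
  refine ⟨fun τ => ∑ σ : f.support, if T σ = τ then f.coeff σ.1 else 0, fun x => ?_⟩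
  rw [ev, MvPolynomial.eval_eq, ← Finset.sum_coe_sort]
  simp_rw [Finset.sum_mul]
  rw [Finset.sum_comm]
  refine Finset.sum_congr rfl fun σ _ => ?_
  simp_rw [ite_mul, zero_mul]
  rw [Finset.sum_ite_eq, if_pos (Finset.mem_univ _), hT]

/-- The weak form of Lang's conjecture over real closed fields: for all `n`, `d`, `r` there is a
number `N` which works for all real closed fields `R` and all nonreal extensions `K` of
transcendence degree `n` of `R`. -/
theorem weak_lang (n d r : ℕ) : ∃ N : ℕ, ∀ (R K : Type) [Field R] [IsRealClosed R] [Field K]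
    [Algebra R K], Algebra.trdeg R K = n → (∃ (s : ℕ) (α : Fin s → K), ∑ i, α i ^ 2 = -1) →
    ∀ m : ℕ, N ≤ m → ∀ (deg : Fin r → ℕ) (f : Fin r → MvPolynomial (Fin m) K),
      (∀ ρ, 1 ≤ deg ρ ∧ deg ρ ≤ d ∧ (f ρ).IsHomogeneous (deg ρ)) →
      ∃ x : Fin m → K, x ≠ 0 ∧ ∀ ρ, MvPolynomial.eval x (f ρ) = 0 := by
  obtain ⟨N, hN⟩ := main n (8 * 2 ^ n) d r
  refine ⟨N, fun R K _ _ _ _ hK hs m hm deg f hf => ?_⟩
  have : CharZero K := charZero_of_injective_algebraMap (algebraMap R K).injective
  have hC := circ_of_growth R K n (growth_of_trdeg R K n hK)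
  choose c hc using fun ρ => exists_tensor (f ρ) (hf ρ).2.2
  obtain ⟨x, hx, h⟩ := hN R K hC (level_bound hC hs) m hm deg c
    (fun ρ => ⟨(hf ρ).1, (hf ρ).2.1⟩)
  exact ⟨x, hx, fun ρ => by rw [hc ρ x]; exact h ρ⟩

end LWR
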